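import Pool.Agent.Lib_MP_f59448_lc.Recursive
import Pool.Agent.Lib_MP_f59448_lc.Functional
import Pool.Agent.Lib_MP_f59448_lc.Open

/-!
# Finite approximations of oracle computations

For every program `c` there is a primitive recursive function `appr c` of the input and of a finite
piece of the oracle which approximates the computations of `c`.
-/

namespace PAtype

open UnifRep

/-- the first `k` values of the oracle -/
def res (x : ℕ → ℕ) (k : ℕ) : List ℕ := (List.range k).map x

@[simp] theorem length_res (x : ℕ → ℕ) (k : ℕ) : (res x k).length = k := by simp [res]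

theorem getElem?_res (x : ℕ → ℕ) (k n : ℕ) :
    (res x k)[n]? = if n < k then some (x n) else none := by
  unfold res
  split_ifs with h
  · simp [h]
  · simp [not_lt.1 h]

theorem res_prefix (x : ℕ → ℕ) {k l : ℕ} (h : k ≤ l) : res x k <+: res x l := by
  rw [List.prefix_iff_eq_take]
  simp only [length_res]
  apply List.ext_getElem?
  intro n
  rw [List.getElem?_take, getElem?_res, getElem?_res]
  split_ifs <;> first | rfl | omega

/-- bounded search for a zero -/
def srch (f : ℕ → Option ℕ) : ℕ → ℕ
  | 0 => 0
  | L + 1 => if srch f L = 0 then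
      (match f L with
        | none => 1
        | some 0 => L + 2
        | some (_ + 1) => 0)
      else srch f L

theorem srch_eq_zero_iff (f : ℕ → Option ℕ) (L : ℕ) :
    srch f L = 0 ↔ ∀ m < L, ∃ k, f m = some (k + 1) := by
  induction L with
  | zero => simp [srch]
  | succ L ih =>
    rw [srch]
    by_cases h : srch f L = 0
    · rw [if_pos h]
      have hL := ih.1 h
      constructor
      · intro h2 m hm
        rcases Nat.lt_succ_iff_lt_or_eq.1 hm with h3 | h3
        · exact hL m h3
        · subst h3
          cases hf : f m with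
          | none => rw [hf] at h2; simp at h2
          | some k =>
            cases k with
            | zero => rw [hf] at h2; simp at h2
            | succ k => exact ⟨k, rfl⟩
      · intro h2
        obtain ⟨k, hk⟩ := h2 L (Nat.lt_succ_self L)
        rw [hk]
    · rw [if_neg h]
      constructor
      · intro h2; exact absurd h2 h
      · intro h2
        exact absurd (ih.2 fun m hm => h2 m (Nat.lt_succ_of_lt hm)) h

theorem srch_eq_iff (f : ℕ → Option ℕ) (L v : ℕ) :
    srch f L = v + 2 ↔ v < L ∧ f v = some 0 ∧ ∀ m < v, ∃ k, f m = some (k + 1) := by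
  induction L with
  | zero => simp [srch]
  | succ L ih =>
    rw [srch]
    by_cases h : srch f L = 0
    · rw [if_pos h]
      have hL := (srch_eq_zero_iff f L).1 h
      constructor
      · intro h2
        cases hf : f L with
        | none => rw [hf] at h2; simp at h2
        | some k =>
          cases k with
          | zero =>
            rw [hf] at h2
            have : v = L := by simp at h2; omega
            subst this
            exact ⟨Nat.lt_succ_self v, hf, hL⟩
          | succ k => rw [hf] at h2; simp at h2
      · rintro ⟨h2, h3, h4⟩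
        rcases Nat.lt_succ_iff_lt_or_eq.1 h2 with h5 | h5
        · obtain ⟨k, hk⟩ := hL v h5
          rw [hk] at h3
          simp at h3
        · subst h5
          rw [h3]
    · rw [if_neg h, ih]
      constructor
      · rintro ⟨h2, h3, h4⟩
        exact ⟨Nat.lt_succ_of_lt h2, h3, h4⟩
      · rintro ⟨h2, h3, h4⟩
        rcases Nat.lt_succ_iff_lt_or_eq.1 h2 with h5 | h5
        · exact ⟨h5, h3, h4⟩
        · subst h5
          exact absurd ((srch_eq_zero_iff f v).2 h4) h

/-- the approximation of the program `c`: input `n`, finite part `ρ` of the oracle -/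
def appr : Code → ℕ → List ℕ → Option ℕ
  | Code.zero => fun _ _ => some 0
  | Code.succ => fun n _ => some (n + 1)
  | Code.left => fun n _ => some n.unpair.1
  | Code.right => fun n _ => some n.unpair.2
  | Code.oracle => fun n ρ => ρ[n]?
  | Code.pair a b => fun n ρ => (appr a n ρ).bind fun s => (appr b n ρ).map fun t => Nat.pair s t
  | Code.comp a b => fun n ρ => (appr b n ρ).bind fun w => appr a w ρ
  | Code.prec a b => fun n ρ => Nat.rec (appr a n.unpair.1 ρ)
      (fun y IH => IH.bind fun i => appr b (Nat.pair n.unpair.1 (Nat.pair y i)) ρ) n.unpair.2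
  | Code.rfind a => fun n ρ =>
      Nat.casesOn (srch (fun m => appr a (Nat.pair n m) ρ) ρ.length) none fun j =>
        Nat.casesOn j none fun v => some v

theorem appr_rfind_eq_some {a : Code} {n : ℕ} {ρ : List ℕ} {v : ℕ} :
    appr (Code.rfind a) n ρ = some v ↔ v < ρ.length ∧ appr a (Nat.pair n v) ρ = some 0 ∧
      ∀ m < v, ∃ k, appr a (Nat.pair n m) ρ = some (k + 1) := by
  rw [← srch_eq_iff (fun m => appr a (Nat.pair n m) ρ)]
  simp only [appr]
  generalize srch (fun m => appr a (Nat.pair n m) ρ) ρ.length = s
  rcases s with _ | _ | s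
  · simp
  · simp
  · simp

theorem appr_mono (c : Code) {n : ℕ} {ρ ρ' : List ℕ} (h : ρ <+: ρ') {v : ℕ}
    (hv : appr c n ρ = some v) : appr c n ρ' = some v := by
  induction c generalizing n v with
  | zero => exact hv
  | succ => exact hv
  | left => exact hv
  | right => exact hv
  | oracle =>
    simp only [appr] at hv ⊢
    obtain ⟨t, rfl⟩ := h
    have hn : n < ρ.length := by
      by_contra h2
      rw [List.getElem?_eq_none (not_lt.1 h2)] at hv
      simp at hv
    rw [List.getElem?_append_left hn]
    exact hv
  | pair a b iha ihb =>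
    simp only [appr, Option.bind_eq_some_iff, Option.map_eq_some_iff] at hv ⊢
    obtain ⟨s, hs, t, ht, rfl⟩ := hv
    exact ⟨s, iha hs, t, ihb ht, rfl⟩
  | comp a b iha ihb =>
    simp only [appr, Option.bind_eq_some_iff] at hv ⊢
    obtain ⟨s, hs, ht⟩ := hv
    exact ⟨s, ihb hs, iha ht⟩
  | prec a b iha ihb =>
    simp only [appr] at hv ⊢
    generalize n.unpair.2 = k at hv ⊢
    induction k generalizing v with
    | zero => exact iha hv
    | succ k ihk =>
      simp only [Option.bind_eq_some_iff] at hv ⊢
      obtain ⟨s, hs, ht⟩ := hv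
      exact ⟨s, ihk hs, ihb ht⟩
  | rfind a iha =>
    rw [appr_rfind_eq_some] at hv ⊢
    obtain ⟨h1, h2, h3⟩ := hv
    refine ⟨h1.trans_le h.length_le, iha h2, fun m hm => ?_⟩
    obtain ⟨k, hk⟩ := h3 m hm
    exact ⟨k, iha hk⟩

/-- the approximation is sound and complete -/
theorem mem_eval_iff (c : Code) (x : ℕ → ℕ) (n v : ℕ) :
    v ∈ eval x c n ↔ ∃ k, appr c n (res x k) = some v := by
  have key : ∀ (c : Code) {n k l v : ℕ}, k ≤ l → appr c n (res x k) = some v →
      appr c n (res x l) = some v := fun c n k l v h hv => appr_mono c (res_prefix x h) hv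
  induction c generalizing n v with
  | zero => simp [eval, appr, eq_comm]
  | succ => simp [eval, appr, eq_comm]
  | left => simp [eval, appr, eq_comm]
  | right => simp [eval, appr, eq_comm]
  | oracle =>
    simp only [eval, appr, Part.mem_some_iff]
    constructor
    · rintro rfl
      exact ⟨n + 1, by rw [getElem?_res, if_pos (Nat.lt_succ_self n)]⟩
    · rintro ⟨k, hk⟩
      rw [getElem?_res] at hk
      split_ifs at hk with h
      exact (Option.some_injective _ hk).symm
  | pair a b iha ihb =>
    simp only [eval, appr, Seq.seq, Functor.map, Part.mem_bind_iff, Part.mem_map_iff,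
      Option.bind_eq_some_iff, Option.map_eq_some_iff]
    constructor
    · rintro ⟨g, ⟨s, hs, rfl⟩, t, ht, rfl⟩
      obtain ⟨k, hk⟩ := (iha n s).1 hs
      obtain ⟨l, hl⟩ := (ihb n t).1 ht
      exact ⟨max k l, s, key a (le_max_left _ _) hk, t, key b (le_max_right _ _) hl, rfl⟩
    · rintro ⟨k, s, hs, t, ht, rfl⟩
      exact ⟨_, ⟨s, (iha n s).2 ⟨k, hs⟩, rfl⟩, t, (ihb n t).2 ⟨k, ht⟩, rfl⟩
  | comp a b iha ihb =>
    have h0 : v ∈ eval x (Code.comp a b) n ↔ ∃ w ∈ eval x b n, v ∈ eval x a w :=
      Part.mem_bind_iff
    rw [h0]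
    simp only [appr, Option.bind_eq_some_iff]
    constructor
    · rintro ⟨w, hw, hv⟩
      obtain ⟨k, hk⟩ := (ihb n w).1 hw
      obtain ⟨l, hl⟩ := (iha w v).1 hv
      exact ⟨max k l, w, key b (le_max_left _ _) hk, key a (le_max_right _ _) hl⟩
    · rintro ⟨k, w, hw, hv⟩
      exact ⟨w, (ihb n w).2 ⟨k, hw⟩, (iha w v).2 ⟨k, hv⟩⟩
  | prec a b iha ihb =>
    simp only [eval, appr]
    generalize n.unpair.2 = q
    generalize n.unpair.1 = p
    induction q generalizing v with
    | zero => exact iha p v
    | succ q ihq =>
      simp only [Bind.bind, Part.mem_bind_iff, Option.bind_eq_some_iff]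
      constructor
      · rintro ⟨w, hw, hv⟩
        obtain ⟨k, hk⟩ := (ihq w).1 hw
        obtain ⟨l, hl⟩ := (ihb _ v).1 hv
        refine ⟨max k l, w, ?_, key b (le_max_right _ _) hl⟩
        have : ∀ (q : ℕ) {w : ℕ}, (Nat.rec (appr a p (res x k))
            (fun y IH => IH.bind fun i => appr b (Nat.pair p (Nat.pair y i)) (res x k)) q :
            Option ℕ) = some w → (Nat.rec (appr a p (res x (max k l)))
            (fun y IH => IH.bind fun i => appr b (Nat.pair p (Nat.pair y i)) (res x (max k l))) q :
            Option ℕ) = some w := by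
          intro q
          induction q with
          | zero => intro w h; exact key a (le_max_left _ _) h
          | succ q ih =>
            intro w h
            simp only [Option.bind_eq_some_iff] at h ⊢
            obtain ⟨s, hs, ht⟩ := h
            exact ⟨s, ih hs, key b (le_max_left _ _) ht⟩
        exact this q hk
      · rintro ⟨k, w, hw, hv⟩
        exact ⟨w, (ihq w).2 ⟨k, hw⟩, (ihb _ v).2 ⟨k, hv⟩⟩
  | rfind a iha =>
    simp only [appr_rfind_eq_some, length_res]
    have h0 : v ∈ eval x (Code.rfind a) n ↔
        (true ∈ (fun k => decide (k = 0)) <$> eval x a (Nat.pair n v)) ∧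
        ∀ {m : ℕ}, m < v → false ∈ (fun k => decide (k = 0)) <$> eval x a (Nat.pair n m) :=
      Nat.mem_rfind
    rw [h0]
    constructor
    · rintro ⟨h1, h2⟩
      obtain ⟨w, hw, hw'⟩ := (Part.mem_map_iff _).1 h1
      have hw0 : w = 0 := by simpa using hw'
      subst hw0
      obtain ⟨k0, hk0⟩ := (iha _ _).1 hw
      have h3 : ∀ m < v, ∃ l, ∃ k, appr a (Nat.pair n m) (res x l) = some (k + 1) := by
        intro m hm
        obtain ⟨k, hk, hk'⟩ := (Part.mem_map_iff _).1 (h2 hm)
        have : k ≠ 0 := by simpa using hk'
        obtain ⟨w, rfl⟩ := Nat.exists_eq_succ_of_ne_zero this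
        obtain ⟨l, hl⟩ := (iha _ _).1 hk
        exact ⟨l, w, hl⟩
      choose! l hl using h3
      refine ⟨max (v + 1) (max k0 ((Finset.range v).sup l)), ?_, ?_, ?_⟩
      · exact lt_of_lt_of_le (Nat.lt_succ_self v) (le_max_left _ _)
      · exact key a ((le_max_left _ _).trans (le_max_right _ _)) hk0
      · intro m hm
        obtain ⟨k, hk⟩ := hl m hm
        exact ⟨k, key a (((Finset.le_sup (f := l) (Finset.mem_range.2 hm)).trans
          (le_max_right _ _)).trans (le_max_right _ _)) hk⟩
    · rintro ⟨k, h1, h2, h3⟩
      constructor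
      · exact (Part.mem_map_iff _).2 ⟨0, (iha _ _).2 ⟨k, h2⟩, by simp⟩
      · intro m hm
        obtain ⟨w, hw⟩ := h3 m hm
        exact (Part.mem_map_iff _).2 ⟨w + 1, (iha _ _).2 ⟨k, hw⟩, by simp⟩

theorem srch_eq_rec (f : ℕ → Option ℕ) (L : ℕ) :
    srch f L = Nat.rec 0 (fun m g => if g = 0 then
      Option.casesOn (f m) 1 (fun k => if k = 0 then m + 2 else 0) else g) L := by
  induction L with
  | zero => rfl
  | succ L ih =>
    rw [srch]
    dsimp only
    rw [← ih]
    by_cases h : srch f L = 0
    · rw [if_pos h, if_pos h]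
      cases hf : f L with
      | none => rfl
      | some k => cases k <;> rfl
    · rw [if_neg h, if_neg h]

theorem appr_primrec (c : Code) : Primrec₂ (appr c) := by
  induction c with
  | zero => exact Primrec₂.const (some 0)
  | succ => exact Primrec.option_some.comp (Primrec.succ.comp Primrec.fst)
  | left => exact Primrec.option_some.comp (Primrec.fst.comp (Primrec.unpair.comp Primrec.fst))
  | right => exact Primrec.option_some.comp (Primrec.snd.comp (Primrec.unpair.comp Primrec.fst))
  | oracle => exact Primrec.list_getElem?.comp Primrec.snd Primrec.fst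
  | pair a b iha ihb =>
    refine Primrec.option_bind iha ?_
    refine Primrec.option_map (ihb.comp (Primrec.fst.comp Primrec.fst)
      (Primrec.snd.comp Primrec.fst)) ?_
    exact Primrec₂.natPair.comp (Primrec.snd.comp Primrec.fst) Primrec.snd
  | comp a b iha ihb =>
    refine Primrec.option_bind ihb ?_
    exact iha.comp Primrec.snd (Primrec.snd.comp Primrec.fst)
  | prec a b iha ihb =>
    have h1 : Primrec fun p : ℕ × List ℕ => p.1.unpair.1 :=
      Primrec.fst.comp (Primrec.unpair.comp Primrec.fst)
    have h2 : Primrec fun p : ℕ × List ℕ => p.1.unpair.2 :=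
      Primrec.snd.comp (Primrec.unpair.comp Primrec.fst)
    have h3 : Primrec₂ fun (p : ℕ × List ℕ) (q : ℕ × Option ℕ) =>
        q.2.bind fun i => appr b (Nat.pair p.1.unpair.1 (Nat.pair q.1 i)) p.2 := by
      refine Primrec.option_bind (Primrec.snd.comp Primrec.snd) ?_
      refine ihb.comp ?_ (Primrec.snd.comp (Primrec.fst.comp Primrec.fst))
      refine Primrec₂.natPair.comp (h1.comp (Primrec.fst.comp Primrec.fst)) ?_
      exact Primrec₂.natPair.comp (Primrec.fst.comp (Primrec.snd.comp Primrec.fst)) Primrec.snd
    exact Primrec.nat_rec' h2 (iha.comp h1 Primrec.snd) h3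
  | rfind a iha =>
    have hs : Primrec fun p : ℕ × List ℕ =>
        srch (fun m => appr a (Nat.pair p.1 m) p.2) p.2.length := by
      have h3 : Primrec₂ fun (p : ℕ × List ℕ) (q : ℕ × ℕ) => if q.2 = 0 then
          Option.casesOn (appr a (Nat.pair p.1 q.1) p.2) 1 (fun k => if k = 0 then q.1 + 2 else 0)
          else q.2 := by
        refine Primrec.ite (Primrec.eq.comp (Primrec.snd.comp Primrec.snd) (Primrec.const 0)) ?_
          (Primrec.snd.comp Primrec.snd)
        refine Primrec.option_casesOn (iha.comp (Primrec₂.natPair.comp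
          (Primrec.fst.comp Primrec.fst)
          (Primrec.fst.comp Primrec.snd)) (Primrec.snd.comp Primrec.fst)) (Primrec.const 1) ?_
        exact Primrec.ite (Primrec.eq.comp Primrec.snd (Primrec.const 0))
          (Primrec.succ.comp (Primrec.succ.comp (Primrec.fst.comp (Primrec.snd.comp Primrec.fst))))
          (Primrec.const 0)
      simp only [srch_eq_rec]
      exact Primrec.nat_rec' (Primrec.list_length.comp Primrec.snd) (Primrec.const 0) h3
    refine Primrec.nat_casesOn hs (Primrec.const none) ?_
    refine Primrec.nat_casesOn Primrec.snd (Primrec.const none) ?_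
    exact Primrec.option_some.comp Primrec.snd

end PAtype
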