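import Mathlib

/-!
# Turing degrees, the relation `≪`, Boolean combinations of existential formulas
-/

namespace PAtype

open FirstOrder

/-- Oracles: the total functions from `ℕ` to `ℕ`, preordered by Turing reducibility. -/
def Orc : Type := ℕ → ℕ

instance : Preorder Orc where
  le x y := TuringReducible (fun n => Part.some (x n)) (fun n => Part.some (y n))
  le_refl x := TuringReducible.refl _
  le_trans x y z h h' := TuringReducible.trans h h'

/-- The Turing degrees, partially ordered by Turing reducibility. -/
def TDeg : Type := Antisymmetrization Orc (· ≤ ·)

instance : PartialOrder TDeg := inferInstanceAs (PartialOrder (Antisymmetrization Orc (· ≤ ·)))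

/-- The Turing degree of a function. -/
def deg (x : ℕ → ℕ) : TDeg := toAntisymmetrization (α := Orc) (· ≤ ·) x

/-- The degrees as a structure in the language with the single binary relation symbol `≤`. -/
instance : Language.order.Structure TDeg := Language.orderStructure TDeg

/-- A tree: a set of finite binary strings closed under initial segments. -/
def IsTree (T : Set (List Bool)) : Prop := ∀ σ τ : List Bool, σ <+: τ → τ ∈ T → σ ∈ T

/-- `x` is a path through `T`: all its finite initial segments are in `T`. -/
def IsPath (x : ℕ → Bool) (T : Set (List Bool)) : Prop := ∀ n, (List.range n).map x ∈ T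

open Classical in
/-- The characteristic function of the set of codes of the elements of a set of strings. -/
noncomputable def chi (T : Set (List Bool)) : ℕ → ℕ :=
  fun n => if ∃ σ ∈ T, Encodable.encode σ = n then 1 else 0

/-- A sequence of bits as a function with values `0`, `1`. -/
def real (x : ℕ → Bool) : ℕ → ℕ := fun n => (x n).toNat

/-- `LL b a` is the relation `b ≪ a`: every infinite tree of degree `≤ b` has an infinite path of
degree `≤ a`. -/
def LL (b a : TDeg) : Prop :=
  ∀ T : Set (List Bool), IsTree T → T.Infinite → deg (chi T) ≤ b →
    ∃ x : ℕ → Bool, IsPath x T ∧ deg (real x) ≤ a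

/-- Boolean combinations of existential formulas (`falsum` is quantifier free, hence existential,
so negations, conjunctions and disjunctions are included). -/
inductive BoolExist {L : Language} {α : Type*} : L.Formula α → Prop
  | ex {φ : L.Formula α} (h : φ.IsExistential) : BoolExist φ
  | imp {φ ψ : L.Formula α} (h₁ : BoolExist φ) (h₂ : BoolExist ψ) : BoolExist (φ.imp ψ)

end PAtype
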