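import Pool.Agent.Lib_MP_5a4806_lc.Paths

/-!
# The upper semilattice of the Turing degrees
-/

namespace PAtype

open UnifRep

theorem deg_le_deg {x y : ℕ → ℕ} : deg x ≤ deg y ↔ Rec y x := by
  rw [rec_iff]
  exact Iff.rfl

theorem exists_rep (a : TDeg) : ∃ x, deg x = a :=
  ⟨ofAntisymmetrization (α := Orc) (· ≤ ·) a, toAntisymmetrization_ofAntisymmetrization _ _⟩

/-- a representative -/
noncomputable def rep (a : TDeg) : ℕ → ℕ := (exists_rep a).choose

@[simp] theorem deg_rep (a : TDeg) : deg (rep a) = a := (exists_rep a).choose_spec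

noncomputable instance : SemilatticeSup TDeg where
  sup a b := deg (join (rep a) (rep b))
  le_sup_left a b := by
    conv_lhs => rw [← deg_rep a]
    exact deg_le_deg.2 (rec_join_left _ _)
  le_sup_right a b := by
    conv_lhs => rw [← deg_rep b]
    exact deg_le_deg.2 (rec_join_right _ _)
  sup_le a b c h1 h2 := by
    rw [← deg_rep c]
    refine deg_le_deg.2 (rec_join ?_ ?_)
    · rw [← deg_le_deg, deg_rep, deg_rep]; exact h1
    · rw [← deg_le_deg, deg_rep, deg_rep]; exact h2

instance : OrderBot TDeg where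
  bot := deg fun _ => 0
  bot_le a := by
    rw [← deg_rep a]
    exact deg_le_deg.2 (Rec.computable (Computable.const 0))

theorem deg_join (x y : ℕ → ℕ) : deg (join x y) = deg x ⊔ deg y := by
  apply le_antisymm
  · obtain ⟨z, hz⟩ := exists_rep (deg x ⊔ deg y)
    rw [← hz]
    refine deg_le_deg.2 (rec_join (deg_le_deg.1 ?_) (deg_le_deg.1 ?_))
    · rw [hz]; exact le_sup_left
    · rw [hz]; exact le_sup_right
  · exact sup_le (deg_le_deg.2 (rec_join_left _ _)) (deg_le_deg.2 (rec_join_right _ _))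

theorem LL.mono {b a a' : TDeg} (h : LL b a) (h' : a ≤ a') : LL b a' := by
  intro T hT hi hb
  obtain ⟨x, hx, hxa⟩ := h T hT hi hb
  exact ⟨x, hx, hxa.trans h'⟩

/-- the generic construction, in terms of degrees -/
theorem exists_generic_deg (b : TDeg) : ∃ (z : TDeg) (V : (ℕ → Bool) → TDeg),
    LL b z ∧ ¬ LL b (b ⊔ V fun _ => true) ∧
    (∀ A A' : ℕ → Bool, Primrec A → (∀ i, A i = true → A' i = true) → V A ≤ V A') ∧
    (∀ A A' : ℕ → Bool, Primrec A → Primrec A' → V (fun i => A i || A' i) ≤ V A ⊔ V A') ∧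
    (∀ i, ¬ V (fun j => decide (j = i)) ≤ b ⊔ z ⊔ V fun j => decide (j ≠ i)) ∧
    (∀ s r, s ≤ b → r ≤ b → ¬ s ≤ r → ¬ s ≤ r ⊔ V fun _ => true) := by
  obtain ⟨b, rfl⟩ := exists_rep b
  obtain ⟨z, W, h1, h2, h3, h4⟩ := exists_generic b
  refine ⟨deg z, fun A => deg (sec A W), ?_, ?_, ?_, ?_, ?_, ?_⟩
  · intro T hT hi hb
    obtain ⟨x, hx, hxz⟩ := h1 T hT hi (deg_le_deg.1 hb)
    exact ⟨x, hx, deg_le_deg.2 hxz⟩
  · intro h
    obtain ⟨x, hx, hxa⟩ := h (dnc b) (fun _ _ => dnc_prefix b) (dnc_infinite b)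
      (deg_le_deg.2 (rec_chi_dnc b))
    beta_reduce at hxa
    rw [sec_true, ← deg_join] at hxa
    exact h2 x hx (deg_le_deg.1 hxa)
  · intro A A' hA h
    exact deg_le_deg.2 (rec_sec hA h W)
  · intro A A' hA hA'
    show deg _ ≤ deg _ ⊔ deg _
    rw [← deg_join]
    refine deg_le_deg.2 ?_
    have h5 : Rec (join (sec A W) (sec A' W)) fun n => max (sec A W n) (sec A' W n) := by
      have h6 := (Rec.computable (x := join (sec A W) (sec A' W))
        (f := fun m => max m.unpair.1 m.unpair.2)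
        ((Primrec.nat_max.comp (Primrec.fst.comp Primrec.unpair)
          (Primrec.snd.comp Primrec.unpair)).to_comp)).comp
        ((rec_join_left (sec A W) (sec A' W)).pair (rec_join_right (sec A W) (sec A' W)))
      simpa only [Nat.unpair_pair] using h6
    have e : (fun n => max (sec A W n) (sec A' W n)) = sec (fun i => A i || A' i) W := by
      funext n
      simp only [sec, Bool.or_eq_true]
      by_cases p : A n.unpair.1 = true <;> by_cases q : A' n.unpair.1 = true <;> simp [p, q]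
    rwa [e] at h5
  · intro i h
    refine h4 i (deg_le_deg.1 ?_)
    rw [deg_join, deg_join]
    exact h
  · intro s r hs hr hsr h
    obtain ⟨s, rfl⟩ := exists_rep s
    obtain ⟨r, rfl⟩ := exists_rep r
    beta_reduce at h
    rw [sec_true, ← deg_join] at h
    exact h3 s r (deg_le_deg.1 hs) (deg_le_deg.1 hr) (fun h => hsr (deg_le_deg.2 h))
      (deg_le_deg.1 h)

end PAtype
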