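import Pool.Agent.Lib_MP_5a4806_lc.Tree

/-!
# Generic reals and a real that computes paths through all trees recursive in `b`
-/

namespace PAtype

open UnifRep Encodable Topology Filter

/-! ## joins and sections -/

/-- the join of two oracles -/
def join (x y : ℕ → ℕ) : ℕ → ℕ := fun n => if n % 2 = 0 then x (n / 2) else y (n / 2)

/-- keep the columns whose index is in `A`, replace the others by zero -/
def sec (A : ℕ → Bool) (W : ℕ → ℕ) : ℕ → ℕ := fun m => if A m.unpair.1 then W m else 0

theorem rec_join_left (x y : ℕ → ℕ) : Rec (join x y) x := by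
  have h : Rec (join x y) fun n => join x y (2 * n) :=
    (Rec.refl _).comp (Rec.computable (Primrec.nat_mul.comp (Primrec.const 2) Primrec.id).to_comp)
  have e : (fun n => join x y (2 * n)) = x := by
    funext n
    simp [join]
  rwa [e] at h

theorem rec_join_right (x y : ℕ → ℕ) : Rec (join x y) y := by
  have h : Rec (join x y) fun n => join x y (2 * n + 1) :=
    (Rec.refl _).comp (Rec.computable (Primrec.succ.comp
      (Primrec.nat_mul.comp (Primrec.const 2) Primrec.id)).to_comp)
  have e : (fun n => join x y (2 * n + 1)) = y := by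
    funext n
    have h1 : (2 * n + 1) % 2 ≠ 0 := by omega
    have h2 : (2 * n + 1) / 2 = n := by omega
    simp only [join]
    rw [if_neg h1, h2]
  rwa [e] at h

theorem rec_join {z x y : ℕ → ℕ} (hx : Rec z x) (hy : Rec z y) : Rec z (join x y) := by
  have hd : Computable fun n : ℕ => n / 2 :=
    (Primrec.nat_div.comp Primrec.id (Primrec.const 2)).to_comp
  have hg : Computable fun m : ℕ => if m.unpair.1 % 2 = 0 then m.unpair.2.unpair.1
      else m.unpair.2.unpair.2 := by
    have h1 : Primrec fun m : ℕ => m.unpair.1 := Primrec.fst.comp Primrec.unpair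
    have h2 : Primrec fun m : ℕ => m.unpair.2 := Primrec.snd.comp Primrec.unpair
    exact (Primrec.ite (Primrec.eq.comp (Primrec.nat_mod.comp h1 (Primrec.const 2))
      (Primrec.const 0)) (h1.comp h2) (h2.comp h2)).to_comp
  have h := (Rec.computable (x := z) hg).comp ((Rec.computable (x := z) Computable.id).pair
    ((hx.comp (Rec.computable hd)).pair (hy.comp (Rec.computable hd))))
  simp only [Nat.unpair_pair] at h
  exact h

theorem rec_sec {A A' : ℕ → Bool} (hA : Primrec A) (h : ∀ i, A i = true → A' i = true)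
    (W : ℕ → ℕ) : Rec (sec A' W) (sec A W) := by
  have hg : Computable fun m : ℕ => if A m.unpair.1.unpair.1 then m.unpair.2 else 0 := by
    have h1 : Primrec fun m : ℕ => m.unpair.1 := Primrec.fst.comp Primrec.unpair
    have h2 : Primrec fun m : ℕ => m.unpair.2 := Primrec.snd.comp Primrec.unpair
    exact (Primrec.ite (Primrec.eq.comp (hA.comp (h1.comp h1)) (Primrec.const true)) h2
      (Primrec.const 0)).to_comp
  have h3 := (Rec.computable (x := sec A' W) hg).comp
    ((Rec.computable (x := sec A' W) Computable.id).pair (Rec.refl _))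
  simp only [Nat.unpair_pair] at h3
  have e : (fun n => if A (id n).unpair.1 = true then sec A' W n else 0) = sec A W := by
    funext n
    simp only [sec, id]
    by_cases h4 : A n.unpair.1 = true
    · rw [if_pos h4, if_pos h4, if_pos (h _ h4)]
    · rw [if_neg h4, if_neg h4]
  rwa [e] at h3

theorem sec_true (W : ℕ → ℕ) : sec (fun _ => true) W = W := by
  funext n; simp [sec]

/-! ## strings -/

theorem res_eq_iff (x y : ℕ → ℕ) (k : ℕ) : res x k = res y k ↔ ∀ i < k, x i = y i := by
  simp [res, List.map_inj_left]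

/-- the extension of a string by zeros -/
def ext0 (τ : List ℕ) : ℕ → ℕ := fun n => τ.getD n 0

theorem res_ext0 (τ : List ℕ) : res (ext0 τ) τ.length = τ := by
  apply List.ext_getElem?
  intro n
  rw [getElem?_res]
  split_ifs with h
  · simp [ext0, h]
  · rw [List.getElem?_eq_none (not_lt.1 h)]

theorem res_of_prefix {W : ℕ → ℕ} {τ μ : List ℕ} (h : res W (τ ++ μ).length = τ ++ μ) :
    res W τ.length = τ := by
  have h1 := res_prefix W (k := τ.length) (l := (τ ++ μ).length) (by simp)
  rw [h, List.prefix_iff_eq_take] at h1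
  rw [h1]
  simp

/-- the join of two strings -/
def jl (ρ τ : List ℕ) : List ℕ :=
  (List.range (2 * min ρ.length τ.length)).map fun i =>
    if i % 2 = 0 then ρ.getD (i / 2) 0 else τ.getD (i / 2) 0

theorem getD_res (x : ℕ → ℕ) {k i : ℕ} (h : i < k) : (res x k).getD i 0 = x i := by
  rw [List.getD_eq_getElem?_getD, getElem?_res, if_pos h]
  rfl

theorem jl_res (x y : ℕ → ℕ) (k l : ℕ) : jl (res x k) (res y l) = res (join x y) (2 * min k l) := by
  unfold jl
  rw [length_res, length_res]
  conv_rhs => unfold res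
  apply List.map_congr_left
  intro i hi
  rw [List.mem_range] at hi
  have h1 : i / 2 < k := by omega
  have h2 : i / 2 < l := by omega
  rw [getD_res x h1, getD_res y h2]
  rfl

theorem jl_primrec : Primrec₂ jl := by
  have hl : Primrec fun p : List ℕ × List ℕ => 2 * min p.1.length p.2.length := by
    refine Primrec.nat_mul.comp (Primrec.const 2) (Primrec.nat_min.comp ?_ ?_)
    · exact Primrec.list_length.comp Primrec.fst
    · exact Primrec.list_length.comp Primrec.snd
  refine Primrec.list_map (Primrec.list_range.comp hl) ?_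
  have hd : Primrec fun q : (List ℕ × List ℕ) × ℕ => q.2 / 2 :=
    Primrec.nat_div.comp Primrec.snd (Primrec.const 2)
  refine Primrec.ite (Primrec.eq.comp (Primrec.nat_mod.comp Primrec.snd (Primrec.const 2))
    (Primrec.const 0)) ?_ ?_
  · exact (Primrec.list_getD 0).comp (Primrec.fst.comp Primrec.fst) hd
  · exact (Primrec.list_getD 0).comp (Primrec.snd.comp Primrec.fst) hd

/-! ## residual sets -/

theorem exists_cyl {U : Set (ℕ → ℕ)} (hU : IsOpen U) {W : ℕ → ℕ} (hW : W ∈ U) :
    ∃ k, ∀ l ≥ k, ∀ W', res W' l = res W l → W' ∈ U := by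
  obtain ⟨v, ⟨x, n, rfl⟩, hWv, hv⟩ :=
    (PiNat.isTopologicalBasis_cylinders fun _ : ℕ => ℕ).exists_subset_of_mem_open hW hU
  refine ⟨n, fun l hl W' h => hv ?_⟩
  rw [res_eq_iff] at h
  intro i hi
  rw [h i (lt_of_lt_of_le hi hl)]
  exact hWv i hi

theorem eventually_residual_of {P : (ℕ → ℕ) → Prop}
    (h : ∀ τ : List ℕ, ∃ μ : List ℕ, ∀ W, res W (τ ++ μ).length = τ ++ μ → P W) :
    ∀ᶠ W in residual (ℕ → ℕ), P W := by
  set U : Set (ℕ → ℕ) := {W | ∃ k, ∀ W', res W' k = res W k → P W'} with hU
  have h1 : IsOpen U := by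
    rw [isOpen_iff_forall_mem_open]
    rintro W ⟨k, hk⟩
    refine ⟨{W' | ∀ i ∈ Finset.range k, W' i = W i}, ?_, ?_, ?_⟩
    · intro W' hW'
      refine ⟨k, fun W'' h2 => hk W'' ?_⟩
      rw [h2, res_eq_iff]
      intro i hi
      exact hW' i (Finset.mem_range.2 hi)
    · have : {W' : ℕ → ℕ | ∀ i ∈ Finset.range k, W' i = W i} =
          ⋂ i ∈ Finset.range k, {W' : ℕ → ℕ | W' i = W i} := by
        ext W'; simp
      rw [this]
      exact isOpen_biInter_finset fun i _ =>
        (isOpen_discrete {W i}).preimage (continuous_apply (A := fun _ : ℕ => ℕ) i)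
    · intro i _; rfl
  have h2 : Dense U := by
    intro W
    rw [mem_closure_iff]
    intro V hV hWV
    obtain ⟨k, hk⟩ := exists_cyl hV hWV
    obtain ⟨μ, hμ⟩ := h (res W k)
    refine ⟨ext0 (res W k ++ μ), hk k le_rfl _ ?_, ⟨(res W k ++ μ).length, fun W' hW' => ?_⟩⟩
    · have := res_of_prefix (res_ext0 (res W k ++ μ))
      rwa [length_res] at this
    · rw [res_ext0] at hW'
      exact hμ W' hW'
  refine mem_of_superset (residual_of_dense_open h1 h2) ?_
  rintro W ⟨k, hk⟩
  exact hk W rfl

/-! ## the two density lemmas -/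

theorem exists_search {r : ℕ → ℕ} (c : Code) (τ : List ℕ)
    (h : ∀ n, ∃ μ v, appr c n (jl (res r (τ ++ μ).length) (τ ++ μ)) = some v) :
    ∃ g, Rec r g ∧ ∀ n, ∃ μ, appr c n (jl (res r (τ ++ μ).length) (τ ++ μ)) = some (g n) := by
  classical
  -- the search runs through the pairs (m, μ), coded by the length of the piece of the oracle
  have hQ : Primrec₂ fun (n : ℕ) (ρ : List ℕ) =>
      if (τ ++ ((decode (α := List ℕ) ρ.length.unpair.2).getD [])).length ≤ ρ.length then
        appr c n (jl ρ (τ ++ ((decode (α := List ℕ) ρ.length.unpair.2).getD []))) else none := by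
    have h1 : Primrec fun p : ℕ × List ℕ => τ ++ ((decode (α := List ℕ)
        p.2.length.unpair.2).getD []) := by
      refine Primrec.list_append.comp (Primrec.const τ) (Primrec.option_getD.comp
        (Primrec.decode.comp ?_) (Primrec.const _))
      exact Primrec.snd.comp (Primrec.unpair.comp (Primrec.list_length.comp Primrec.snd))
    refine Primrec.ite (Primrec.nat_le.comp (Primrec.list_length.comp h1)
      (Primrec.list_length.comp Primrec.snd)) ?_ (Primrec.const none)
    exact (appr_primrec c).comp Primrec.fst (jl_primrec.comp Primrec.snd h1)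
  have hjl : ∀ (k : ℕ) (σ : List ℕ), σ.length ≤ k → jl (res r k) σ = jl (res r σ.length) σ := by
    intro k σ hk
    have e : σ = res (ext0 σ) σ.length := (res_ext0 σ).symm
    rw [e, jl_res, jl_res, length_res, min_eq_right hk, min_self]
  obtain ⟨c', hc'⟩ := exists_code_search hQ.to_comp
  have h3 : ∀ n, ∃ k, (if (τ ++ ((decode (α := List ℕ) (res r k).length.unpair.2).getD [])).length
      ≤ (res r k).length then appr c n (jl (res r k) (τ ++ ((decode (α := List ℕ)
        (res r k).length.unpair.2).getD []))) else none) ≠ none := by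
    intro n
    obtain ⟨μ, v, hμ⟩ := h n
    refine ⟨Nat.pair (τ ++ μ).length (encode μ), ?_⟩
    simp only [length_res, Nat.unpair_pair, encodek, Option.getD_some]
    rw [if_pos (Nat.left_le_pair _ _), hjl _ _ (Nat.left_le_pair _ _), hμ]
    simp
  have h4 : ∀ n, ∃ v, v ∈ eval r c' n ∧
      ∃ μ, appr c n (jl (res r (τ ++ μ).length) (τ ++ μ)) = some v := by
    intro n
    obtain ⟨v, hv⟩ := Option.ne_none_iff_exists'.1 (Nat.find_spec (h3 n))
    refine ⟨v, (hc' r n v).2 ⟨Nat.find (h3 n), hv, fun j hj => ?_⟩, ?_⟩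
    · exact not_not.1 (Nat.find_min (h3 n) hj)
    · split_ifs at hv with h5
      rw [length_res] at h5
      rw [hjl _ _ (by rw [length_res]; exact h5), length_res] at hv
      exact ⟨_, hv⟩
  choose g hg1 hg2 using h4
  exact ⟨g, ⟨c', hg1⟩, hg2⟩

theorem appr_of_computes {c : Code} {r W y : ℕ → ℕ} (h : Computes c (join r W) y) (τ : List ℕ)
    (hW : res W τ.length = τ) (n : ℕ) :
    ∃ μ, res W (τ ++ μ).length = τ ++ μ ∧
      appr c n (jl (res r (τ ++ μ).length) (τ ++ μ)) = some (y n) := by
  obtain ⟨k, hk⟩ := (mem_eval_iff c _ n (y n)).1 (h n)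
  set l := max k τ.length with hl
  have h1 : τ <+: res W l := by
    have := res_prefix W (k := τ.length) (l := l) (le_max_right _ _)
    rwa [hW] at this
  obtain ⟨μ, hμ⟩ := h1
  refine ⟨μ, ?_, ?_⟩
  · rw [hμ, length_res]
  · rw [hμ, length_res, jl_res, min_self]
    refine appr_mono c (res_prefix _ ?_) hk
    have : k ≤ l := le_max_left _ _
    omega

/-- first density lemma -/
theorem dense_ok {r : ℕ → ℕ} {Ok : ℕ → ℕ → Prop} (hOk : ¬ ∃ g, Rec r g ∧ ∀ n, Ok n (g n)) :
    ∀ᶠ W in residual (ℕ → ℕ), ¬ ∃ y, Rec (join r W) y ∧ ∀ n, Ok n (y n) := by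
  have key : ∀ c : Code, ∀ᶠ W in residual (ℕ → ℕ),
      ¬ ∃ y, Computes c (join r W) y ∧ ∀ n, Ok n (y n) := by
    intro c
    apply eventually_residual_of
    intro τ
    by_contra hcon
    push Not at hcon
    apply hOk
    have h1 : ∀ n, ∃ μ v, appr c n (jl (res r (τ ++ μ).length) (τ ++ μ)) = some v := by
      intro n
      obtain ⟨W, hW, y, hy, -⟩ := hcon []
      obtain ⟨μ, -, hμ⟩ := appr_of_computes hy τ (by simpa using hW) n
      exact ⟨μ, _, hμ⟩
    obtain ⟨g, hg, hg2⟩ := exists_search c τ h1
    refine ⟨g, hg, fun n => ?_⟩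
    obtain ⟨μ, hμ⟩ := hg2 n
    obtain ⟨W, hW, y, hy, hok⟩ := hcon μ
    have h2 : y n = g n := by
      have h3 : g n ∈ eval (join r W) c n := by
        rw [mem_eval_iff]
        refine ⟨2 * min (τ ++ μ).length (τ ++ μ).length, ?_⟩
        rw [← jl_res, hW]
        exact hμ
      exact Part.mem_unique (hy n) h3
    rw [← h2]
    exact hok n
  have h2 : ∀ᶠ W in residual (ℕ → ℕ), ∀ c : Code,
      ¬ ∃ y, Computes c (join r W) y ∧ ∀ n, Ok n (y n) := eventually_countable_forall.2 key
  refine h2.mono fun W hW => ?_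
  rintro ⟨y, ⟨c, hc⟩, hy⟩
  exact hW c ⟨y, hc, hy⟩

theorem continuous_join_sec (x : ℕ → ℕ) (A : ℕ → Bool) :
    Continuous fun W : ℕ → ℕ => join x (sec A W) := by
  refine continuous_pi fun n => ?_
  simp only [join, sec]
  by_cases h1 : n % 2 = 0
  · simp only [h1, if_true]
    exact continuous_const
  · simp only [h1, if_false]
    by_cases h2 : A (n / 2).unpair.1 = true
    · simp only [h2, if_true]
      exact continuous_apply _
    · simp only [h2]
      exact continuous_const

/-- second density lemma: a column is not recursive in the other columns -/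
theorem dense_indep (x : ℕ → ℕ) (i : ℕ) :
    ∀ᶠ W in residual (ℕ → ℕ),
      ¬ Rec (join x (sec (fun j => decide (j ≠ i)) W)) (sec (fun j => decide (j = i)) W) := by
  have key : ∀ c : Code, ∀ᶠ W in residual (ℕ → ℕ),
      ¬ Computes c (join x (sec (fun j => decide (j ≠ i)) W))
        (sec (fun j => decide (j = i)) W) := by
    intro c
    apply eventually_residual_of
    intro τ
    set n := Nat.pair i τ.length with hn
    have hn1 : n.unpair.1 = i := by rw [hn, Nat.unpair_pair]
    have hnτ : τ.length ≤ n := Nat.right_le_pair _ _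
    by_cases hA : ∃ W v, res W τ.length = τ ∧
        v ∈ eval (join x (sec (fun j => decide (j ≠ i)) W)) c n
    · obtain ⟨W, v, hW, hv⟩ := hA
      set W1 : ℕ → ℕ := Function.update W n (v + 1) with hW1
      have e1 : sec (fun j => decide (j ≠ i)) W1 = sec (fun j => decide (j ≠ i)) W := by
        funext m
        simp only [sec]
        by_cases hm : m = n
        · subst hm
          simp [hn1]
        · rw [hW1, Function.update_of_ne hm]
      have hU : IsOpen ({W' : ℕ → ℕ | v ∈ eval (join x (sec (fun j => decide (j ≠ i)) W')) c n} ∩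
          {W' : ℕ → ℕ | W' n = v + 1}) := by
        refine ((isOpen_eval c n v).preimage (continuous_join_sec x _)).inter ?_
        exact (isOpen_discrete {v + 1}).preimage (continuous_apply (A := fun _ : ℕ => ℕ) n)
      have hW1U : W1 ∈ ({W' : ℕ → ℕ | v ∈ eval (join x (sec (fun j => decide (j ≠ i)) W')) c n} ∩
          {W' : ℕ → ℕ | W' n = v + 1}) := by
        refine ⟨?_, ?_⟩
        · show v ∈ eval (join x (sec (fun j => decide (j ≠ i)) W1)) c n
          rw [e1]
          exact hv
        · show W1 n = v + 1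
          rw [hW1, Function.update_self]
      obtain ⟨k, hk⟩ := exists_cyl hU hW1U
      have h2 : τ <+: res W1 (max k τ.length) := by
        have h3 := res_prefix W1 (k := τ.length) (l := max k τ.length) (le_max_right _ _)
        have h4 : res W1 τ.length = τ := by
          rw [← hW, length_res, res_eq_iff]
          intro j hj
          rw [hW1, Function.update_of_ne (by omega)]
        rwa [h4] at h3
      obtain ⟨μ, hμ⟩ := h2
      refine ⟨μ, fun W' hW' hcomp => ?_⟩
      rw [hμ, length_res] at hW'
      obtain ⟨h5, h6⟩ := hk _ (le_max_left _ _) W' hW'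
      have h7 := Part.mem_unique (hcomp n) h5
      have h8 : sec (fun j => decide (j = i)) W' n = W' n := by simp [sec, hn1]
      have h9 : W' n = v + 1 := h6
      omega
    · refine ⟨[], fun W hW hcomp => hA ⟨W, _, ?_, hcomp n⟩⟩
      simpa using hW
  have h2 : ∀ᶠ W in residual (ℕ → ℕ), ∀ c : Code,
      ¬ Computes c (join x (sec (fun j => decide (j ≠ i)) W))
        (sec (fun j => decide (j = i)) W) := eventually_countable_forall.2 key
  refine h2.mono fun W hW => ?_
  rintro ⟨c, hc⟩
  exact hW c hc

end PAtype
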