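import Mathlib

/-!
# Existential formulas and finite partial embeddings
-/

namespace PAtype

open FirstOrder FirstOrder.Language FirstOrder.Language.Structure

variable {L : Language} {M : Type*} [L.Structure M]

/-- `f` is an embedding on the set `S`, which is closed under the functions of the language -/
structure Good (L : Language) {M : Type*} [L.Structure M] (S : Set M) (f : M → M) : Prop where
  mem : ∀ (n : ℕ) (F : L.Functions n) (x : Fin n → M), (∀ i, x i ∈ S) → funMap F x ∈ S
  map : ∀ (n : ℕ) (F : L.Functions n) (x : Fin n → M), (∀ i, x i ∈ S) →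
    f (funMap F x) = funMap F (f ∘ x)
  rel : ∀ (n : ℕ) (R : L.Relations n) (x : Fin n → M), (∀ i, x i ∈ S) →
    (RelMap R (f ∘ x) ↔ RelMap R x)
  inj : Set.InjOn f S

theorem Good.term {S : Set M} {f : M → M} (hf : Good L S f) {β : Type*} (t : L.Term β) (v : β → M)
    (hv : ∀ i, v i ∈ S) : t.realize v ∈ S ∧ t.realize (f ∘ v) = f (t.realize v) := by
  induction t with
  | var i => exact ⟨hv i, rfl⟩
  | func F ts ih =>
    refine ⟨hf.mem _ F _ fun i => (ih i).1, ?_⟩
    rw [Term.realize_func, Term.realize_func, hf.map _ F _ fun i => (ih i).1]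
    congr 1
    funext i
    exact (ih i).2

theorem Good.qf {S : Set M} {f : M → M} (hf : Good L S f) {α : Type*} {n : ℕ}
    {φ : L.BoundedFormula α n} (hφ : φ.IsQF) (v : α → M) (xs : Fin n → M)
    (hv : ∀ i, v i ∈ S) (hxs : ∀ i, xs i ∈ S) :
    φ.Realize (f ∘ v) (f ∘ xs) ↔ φ.Realize v xs := by
  have hs : ∀ i, Sum.elim v xs i ∈ S := by
    rintro (i | i)
    · exact hv i
    · exact hxs i
  induction hφ with
  | falsum => exact Iff.rfl
  | of_isAtomic h =>
    cases h with
    | equal t₁ t₂ =>
      rw [BoundedFormula.realize_bdEqual, BoundedFormula.realize_bdEqual, ← Sum.comp_elim,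
        (hf.term t₁ _ hs).2, (hf.term t₂ _ hs).2]
      exact hf.inj.eq_iff (hf.term t₁ _ hs).1 (hf.term t₂ _ hs).1
    | rel R ts =>
      rw [BoundedFormula.realize_rel, BoundedFormula.realize_rel, ← Sum.comp_elim]
      rw [← hf.rel _ R _ fun i => (hf.term (ts i) _ hs).1]
      have e : (fun i => (ts i).realize (f ∘ Sum.elim v xs)) =
          f ∘ fun i => (ts i).realize (Sum.elim v xs) := by
        funext i
        exact (hf.term (ts i) _ hs).2
      rw [e]
  | imp _ _ ih1 ih2 =>
    exact imp_congr ih1 ih2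

/-- an existential formula that holds continues to hold under every map that is an embedding on a
suitable finite set -/
theorem exists_finite {α : Type*} [Finite α] {n : ℕ} {φ : L.BoundedFormula α n}
    (hφ : φ.IsExistential) (v : α → M) (xs : Fin n → M) (h : φ.Realize v xs) :
    ∃ S0 : Set M, S0.Finite ∧ ∀ (S : Set M) (f : M → M), S0 ⊆ S → Good L S f →
      φ.Realize (f ∘ v) (f ∘ xs) := by
  induction hφ with
  | of_isQF hq =>
    refine ⟨Set.range v ∪ Set.range xs, (Set.finite_range v).union (Set.finite_range xs),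
      fun S f hS hf => ?_⟩
    rw [hf.qf hq v xs (fun i => hS (Or.inl ⟨i, rfl⟩)) fun i => hS (Or.inr ⟨i, rfl⟩)]
    exact h
  | ex _ ih =>
    rw [BoundedFormula.realize_ex] at h
    obtain ⟨x, hx⟩ := h
    obtain ⟨S0, h0, h1⟩ := ih (Fin.snoc xs x) hx
    refine ⟨S0, h0, fun S f hS hf => ?_⟩
    rw [BoundedFormula.realize_ex]
    refine ⟨f x, ?_⟩
    have h2 := h1 S f hS hf
    rwa [Fin.comp_snoc] at h2

end PAtype
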