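import Mathlib

/-!
# The transfer lemma in an upper semilattice
-/

namespace PAtype

open Finset

variable {D : Type*} [SemilatticeSup D] [OrderBot D]

open Classical in
theorem transfer {b z ev all : D} {col rest : ℕ → D}
    (h_rest : ∀ i j, i ≠ j → col j ≤ rest i)
    (h_ev_rest : ∀ i, i % 2 = 1 → ev ≤ rest i)
    (h_col_ev : ∀ i, i % 2 = 0 → col i ≤ ev)
    (h_col_all : ∀ i, col i ≤ all)
    (h_indep : ∀ i, ¬ col i ≤ b ⊔ z ⊔ rest i)
    (h_ret : ∀ s r, s ≤ b → r ≤ b → ¬ s ≤ r → ¬ s ≤ r ⊔ all)
    {g0 g1 : D} (hg0 : ev ≤ g0) (hg1 : ev ≤ g1) (hg1' : g1 ≤ ev ⊔ z)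
    (S : Finset D) :
    ∃ f : D → D, (∀ y, y ≤ b → f y = y) ∧ f (b ⊔ g0) = b ⊔ g1 ∧
      ∀ p ∈ S, ∀ q ∈ S, (f p ≤ f q ↔ p ≤ q) := by
  set a0 := b ⊔ g0 with ha0
  set S' : Finset D := insert b (insert a0 S) with hS'
  have hbS : b ∈ S' := by simp [hS']
  have haS : a0 ∈ S' := by simp [hS']
  have hSS : ∀ p ∈ S, p ∈ S' := fun p hp => by simp [hS', hp]
  let idx : D → ℕ := fun t => 2 * S'.toList.idxOf t + (if t ≤ a0 then 0 else 1)
  have hidx : ∀ t ∈ S', ∀ t' ∈ S', idx t = idx t' → t = t' := by
    intro t ht t' ht' h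
    have h1 : S'.toList.idxOf t = S'.toList.idxOf t' := by
      simp only [idx] at h
      split_ifs at h <;> omega
    exact (List.idxOf_inj (Finset.mem_toList.2 ht)).1 h1
  have hev : ∀ t, t ≤ a0 → idx t % 2 = 0 := by
    intro t ht; simp only [idx, if_pos ht]; omega
  have hodd : ∀ t, ¬ t ≤ a0 → idx t % 2 = 1 := by
    intro t ht; simp only [idx, if_neg ht]; omega
  let G : D → D := fun t => if t = a0 then g1 else col (idx t)
  have hGa : G a0 = g1 := if_pos rfl
  have hGt : ∀ t, t ≠ a0 → G t = col (idx t) := fun t ht => if_neg ht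
  let lo : D → D := fun y => (S'.filter fun s => s ≤ b ∧ s ≤ y).sup id
  let hi : D → D := fun y => (S'.filter fun t => ¬ t ≤ b ∧ t ≤ y).sup G
  let f : D → D := fun y => if y ≤ b then y else lo y ⊔ hi y
  have hf1 : ∀ y, y ≤ b → f y = y := fun y hy => if_pos hy
  have hf2 : ∀ y, ¬ y ≤ b → f y = lo y ⊔ hi y := fun y hy => if_neg hy
  have hlo_b : ∀ y, lo y ≤ b := fun y => Finset.sup_le fun s hs => (Finset.mem_filter.1 hs).2.1
  have hlo_y : ∀ y, lo y ≤ y := fun y => Finset.sup_le fun s hs => (Finset.mem_filter.1 hs).2.2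
  have hcolb : ∀ i, ¬ col i ≤ b := fun i h =>
    h_indep i (h.trans (le_sup_left.trans le_sup_left))
  have ha0b : ¬ a0 ≤ b := fun h =>
    hcolb 0 ((h_col_ev 0 rfl).trans (hg0.trans (le_sup_right.trans h)))
  have hba0 : b ≤ a0 := le_sup_left
  have hg1b : ¬ g1 ≤ b := fun h => hcolb 0 ((h_col_ev 0 rfl).trans (hg1.trans h))
  have hG_le : ∀ y, ¬ y ≤ b → y ∈ S' → G y ≤ f y := by
    intro y hy hyS
    rw [hf2 y hy]
    exact le_sup_of_le_right (Finset.le_sup (f := G) (Finset.mem_filter.2 ⟨hyS, hy, le_rfl⟩))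
  refine ⟨f, hf1, ?_, fun p hp q hq => ⟨?_, ?_⟩⟩
  · -- the value at `a0`
    rw [hf2 a0 ha0b]
    apply le_antisymm
    · refine sup_le ((hlo_b a0).trans le_sup_left) (Finset.sup_le fun t ht => ?_)
      obtain ⟨h1, h2, h3⟩ := Finset.mem_filter.1 ht
      by_cases h4 : t = a0
      · rw [h4, hGa]; exact le_sup_right
      · rw [hGt t h4]
        exact (h_col_ev _ (hev t h3)).trans (hg1.trans le_sup_right)
    · refine sup_le ?_ ?_
      · exact le_sup_of_le_left (Finset.le_sup (f := id)
          (Finset.mem_filter.2 ⟨hbS, le_rfl, hba0⟩))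
      · refine le_sup_of_le_right ?_
        have := Finset.le_sup (f := G) (s := S'.filter fun t => ¬ t ≤ b ∧ t ≤ a0)
          (Finset.mem_filter.2 ⟨haS, ha0b, le_rfl⟩)
        rwa [hGa] at this
  · -- `f` reflects the order
    have hp' := hSS p hp
    have hq' := hSS q hq
    intro hpq
    by_contra hcon
    by_cases hpb : p ≤ b
    · rw [hf1 p hpb] at hpq
      by_cases hqb : q ≤ b
      · rw [hf1 q hqb] at hpq
        exact hcon hpq
      · rw [hf2 q hqb] at hpq
        refine h_ret p (lo q) hpb (hlo_b q) (fun h => hcon (h.trans (hlo_y q))) (hpq.trans ?_)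
        refine sup_le_sup le_rfl (Finset.sup_le fun t ht => ?_)
        obtain ⟨h1, h2, h3⟩ := Finset.mem_filter.1 ht
        have h4 : t ≠ a0 := by
          rintro rfl
          exact hcon (hpb.trans (hba0.trans h3))
        rw [hGt t h4]
        exact h_col_all _
    · have hGp := (hG_le p hpb hp').trans hpq
      by_cases hqb : q ≤ b
      · rw [hf1 q hqb] at hGp
        by_cases h4 : p = a0
        · rw [h4, hGa] at hGp
          exact hg1b (hGp.trans hqb)
        · rw [hGt p h4] at hGp
          exact hcolb _ (hGp.trans hqb)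
      · rw [hf2 q hqb] at hGp
        by_cases h4 : p = a0
        · -- choose an unused even index
          subst h4
          obtain ⟨j, hj0, hj⟩ : ∃ j, j % 2 = 0 ∧ ∀ t ∈ S', idx t ≠ j := by
            refine ⟨2 * (S'.toList.length + 1), by omega, fun t ht h => ?_⟩
            have h5 : S'.toList.idxOf t < S'.toList.length :=
              List.idxOf_lt_length_of_mem (Finset.mem_toList.2 ht)
            simp only [idx] at h
            split_ifs at h <;> omega
          rw [hGa] at hGp
          refine h_indep j ((h_col_ev j hj0).trans (hg1.trans (hGp.trans ?_)))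
          refine sup_le ((hlo_b q).trans (le_sup_left.trans le_sup_left))
            (Finset.sup_le fun t ht => ?_)
          obtain ⟨h1, h2, h3⟩ := Finset.mem_filter.1 ht
          have h5 : t ≠ a0 := by
            rintro rfl
            exact hcon h3
          rw [hGt t h5]
          exact (h_rest j (idx t) (hj t h1).symm).trans le_sup_right
        · rw [hGt p h4] at hGp
          refine h_indep (idx p) (hGp.trans ?_)
          refine sup_le ((hlo_b q).trans (le_sup_left.trans le_sup_left))
            (Finset.sup_le fun t ht => ?_)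
          obtain ⟨h1, h2, h3⟩ := Finset.mem_filter.1 ht
          by_cases h5 : t = a0
          · rw [h5, hGa]
            have h6 : ¬ p ≤ a0 := fun h => hcon (h.trans (h5 ▸ h3))
            refine hg1'.trans (sup_le ((h_ev_rest _ (hodd p h6)).trans le_sup_right) ?_)
            exact le_sup_right.trans le_sup_left
          · rw [hGt t h5]
            refine (h_rest (idx p) (idx t) fun h => ?_).trans le_sup_right
            have := hidx p hp' t h1 h
            rw [this] at hcon
            exact hcon h3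
  · -- `f` is monotone
    have hp' := hSS p hp
    intro hpq
    by_cases hpb : p ≤ b
    · rw [hf1 p hpb]
      by_cases hqb : q ≤ b
      · rw [hf1 q hqb]; exact hpq
      · rw [hf2 q hqb]
        exact le_sup_of_le_left (Finset.le_sup (f := id) (Finset.mem_filter.2 ⟨hp', hpb, hpq⟩))
    · have hqb : ¬ q ≤ b := fun h => hpb (hpq.trans h)
      rw [hf2 p hpb, hf2 q hqb]
      refine sup_le_sup ?_ ?_
      · refine Finset.sup_mono fun s hs => ?_
        obtain ⟨h1, h2, h3⟩ := Finset.mem_filter.1 hs
        exact Finset.mem_filter.2 ⟨h1, h2, h3.trans hpq⟩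
      · refine Finset.sup_mono fun s hs => ?_
        obtain ⟨h1, h2, h3⟩ := Finset.mem_filter.1 hs
        exact Finset.mem_filter.2 ⟨h1, h2, h3.trans hpq⟩

end PAtype
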