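import Pool.Agent.Lib_MP_5a4806_lc.Deg
import Pool.Agent.Lib_MP_5a4806_lc.Transfer
import Pool.Agent.Lib_MP_5a4806_lc.Logic

/-!
# Boolean combinations of existential formulas do not define `≪`
-/

namespace PAtype

open FirstOrder FirstOrder.Language

/-- a map that is an order embedding on a set -/
theorem good_order {S : Set TDeg} {f : TDeg → TDeg}
    (hf : ∀ p ∈ S, ∀ q ∈ S, (f p ≤ f q ↔ p ≤ q)) : Good Language.order S f where
  mem n F := F.elim
  map n F := F.elim
  rel n R x hx := by
    cases R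
    exact hf _ (hx 0) _ (hx 1)
  inj p hp q hq h := le_antisymm ((hf p hp q hq).1 h.le) ((hf q hq p hp).1 h.ge)

/-- the main lemma -/
theorem exists_same_type (b : TDeg) : ∃ a a' : TDeg, b ≤ a' ∧ a' ≤ a ∧ LL b a ∧ ¬ LL b a' ∧
    ∀ (α : Type) [Finite α] (v v' : α → TDeg),
      (∀ i, (v i ≤ b ∧ v' i = v i) ∨ (v i = a ∧ v' i = a')) →
      ∀ φ : Language.order.Formula α, BoolExist φ → (φ.Realize v ↔ φ.Realize v') := by
  obtain ⟨z, V, h1, h2, h3, h4, h5, h6⟩ := exists_generic_deg b
  set ev := V (fun i => decide (i % 2 = 0)) with hev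
  have hmod : Primrec fun i : ℕ => decide (i % 2 = 0) :=
    (Primrec.eq.comp (Primrec.nat_mod.comp Primrec.id (Primrec.const 2)) (Primrec.const 0)).decide
  have heq : ∀ i : ℕ, Primrec fun j : ℕ => decide (j = i) := fun i =>
    (Primrec.eq.comp Primrec.id (Primrec.const i)).decide
  have hne : ∀ i : ℕ, Primrec fun j : ℕ => decide (j ≠ i) := fun i =>
    (Primrec.eq.comp Primrec.id (Primrec.const i)).not.decide
  have key := fun (g0 g1 : TDeg) (hg0 : ev ≤ g0) (hg1 : ev ≤ g1) (hg1' : g1 ≤ ev ⊔ z)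
      (S : Finset TDeg) =>
    transfer (b := b) (z := z) (ev := ev) (all := V fun _ => true)
      (col := fun i => V fun j => decide (j = i)) (rest := fun i => V fun j => decide (j ≠ i))
      (fun i j hij => h3 _ _ (heq j) fun k hk => by
        have : k = j := by simpa using hk
        subst this
        simpa using hij.symm)
      (fun i hi => h3 _ _ hmod fun k hk => by
        have h7 : k % 2 = 0 := by simpa using hk
        have : k ≠ i := by rintro rfl; omega
        simpa using this)
      (fun i hi => h3 _ _ (heq i) fun k hk => by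
        have : k = i := by simpa using hk
        subst this
        simpa using hi)
      (fun i => h3 _ _ (heq i) fun _ _ => rfl) h5 h6 hg0 hg1 hg1' S
  refine ⟨b ⊔ (ev ⊔ z), b ⊔ ev, le_sup_left, sup_le_sup le_rfl le_sup_left,
    h1.mono (le_sup_right.trans le_sup_right), fun h => h2 (h.mono ?_), ?_⟩
  · exact sup_le_sup le_rfl (h3 _ _ hmod fun _ _ => rfl)
  · -- one direction for existential formulas
    have dir : ∀ (g0 g1 : TDeg), ev ≤ g0 → ev ≤ g1 → g1 ≤ ev ⊔ z →
        ∀ (α : Type) [Finite α] (v v' : α → TDeg),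
        (∀ i, (v i ≤ b ∧ v' i = v i) ∨ (v i = b ⊔ g0 ∧ v' i = b ⊔ g1)) →
        ∀ φ : Language.order.Formula α, φ.IsExistential → φ.Realize v → φ.Realize v' := by
      intro g0 g1 hg0 hg1 hg1' α _ v v' hv φ hφ hr
      obtain ⟨S0, hS0, hS1⟩ := exists_finite hφ v default hr
      obtain ⟨f, hf1, hf2, hf3⟩ := key g0 g1 hg0 hg1 hg1' hS0.toFinset
      have h7 := hS1 S0 f le_rfl (good_order fun p hp q hq =>
        hf3 p (hS0.mem_toFinset.2 hp) q (hS0.mem_toFinset.2 hq))
      have e : f ∘ v = v' := by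
        funext i
        rcases hv i with ⟨h8, h9⟩ | ⟨h8, h9⟩
        · rw [h9]; exact hf1 _ h8
        · rw [h9, Function.comp_apply, h8, hf2]
      rw [e] at h7
      have e2 : (f ∘ (default : Fin 0 → TDeg)) = default := Subsingleton.elim _ _
      rw [e2] at h7
      exact h7
    intro α _ v v' hv φ hφ
    induction hφ with
    | ex h =>
      refine ⟨dir (ev ⊔ z) ev le_sup_left le_rfl le_sup_left α v v' hv _ h,
        dir ev (ev ⊔ z) le_rfl le_sup_left le_rfl α v' v (fun i => ?_) _ h⟩
      rcases hv i with ⟨h8, h9⟩ | ⟨h8, h9⟩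
      · left; rw [h9]; exact ⟨h8, rfl⟩
      · right; exact ⟨h9, h8⟩
    | imp _ _ ih1 ih2 => exact imp_congr ih1 ih2

end PAtype
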