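import Pool.Agent.Lib_MP_5a4806_lc.Generic

/-!
# Paths through infinite trees; the generic construction over a real `b`
-/

namespace PAtype

open UnifRep Encodable Topology Filter

/-- weak König's lemma -/
theorem exists_isPath {T : Set (List Bool)} (hT : IsTree T) (hi : T.Infinite) :
    ∃ x, IsPath x T := by
  classical
  let E : List Bool → Prop := fun σ => {τ | τ ∈ T ∧ σ <+: τ}.Infinite
  have h0 : E [] := by
    have : {τ : List Bool | τ ∈ T ∧ [] <+: τ} = T := by ext τ; simp
    show Set.Infinite _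
    rw [this]
    exact hi
  have hstep : ∀ σ, E σ → ∃ b, E (σ ++ [b]) := by
    intro σ hσ
    by_contra hcon
    push Not at hcon
    have h1 : {τ | τ ∈ T ∧ σ <+: τ} ⊆ {σ} ∪ ({τ | τ ∈ T ∧ (σ ++ [false]) <+: τ} ∪
        {τ | τ ∈ T ∧ (σ ++ [true]) <+: τ}) := by
      rintro τ ⟨hτ, μ, rfl⟩
      cases μ with
      | nil => left; simp
      | cons b μ =>
        right
        cases b with
        | false => left; exact ⟨hτ, μ, by simp⟩
        | true => right; exact ⟨hτ, μ, by simp⟩
    refine hσ (Set.Finite.subset ?_ h1)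
    refine (Set.finite_singleton σ).union ?_
    exact (Set.not_infinite.1 (hcon false)).union (Set.not_infinite.1 (hcon true))
  choose! nx hnx using hstep
  let s : ℕ → List Bool := fun n => Nat.rec [] (fun _ σ => σ ++ [nx σ]) n
  have hs : ∀ n, E (s n) := by
    intro n
    induction n with
    | zero => exact h0
    | succ n ih => exact hnx _ ih
  refine ⟨fun n => nx (s n), fun n => ?_⟩
  have e : (List.range n).map (fun n => nx (s n)) = s n := by
    induction n with
    | zero => rfl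
    | succ n ih => rw [List.range_succ, List.map_append, ih]; rfl
  rw [e]
  obtain ⟨τ, hτ, h2⟩ := (hs n).nonempty
  exact hT _ _ h2 hτ

theorem chi_injective : Function.Injective chi := by
  classical
  intro T T' h
  ext σ
  have h1 := congrFun h (encode σ)
  unfold chi at h1
  have h2 : (∃ τ ∈ T, encode τ = encode σ) ↔ σ ∈ T :=
    ⟨fun ⟨τ, h3, h4⟩ => encode_injective h4 ▸ h3, fun h3 => ⟨σ, h3, rfl⟩⟩
  have h3 : (∃ τ ∈ T', encode τ = encode σ) ↔ σ ∈ T' :=
    ⟨fun ⟨τ, h3, h4⟩ => encode_injective h4 ▸ h3, fun h3 => ⟨σ, h3, rfl⟩⟩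
  rw [if_congr h2 rfl rfl, if_congr h3 rfl rfl] at h1
  by_cases h4 : σ ∈ T
  · by_cases h5 : σ ∈ T'
    · simp [h4, h5]
    · simp [h4, h5] at h1
  · by_cases h5 : σ ∈ T'
    · simp [h4, h5] at h1
    · simp [h4, h5]

/-- for every `b` there is a real that computes a path through each infinite tree recursive
in `b` -/
theorem exists_paths (b : ℕ → ℕ) : ∃ z : ℕ → ℕ, ∀ T : Set (List Bool), IsTree T → T.Infinite →
    Rec b (chi T) → ∃ x, IsPath x T ∧ Rec z (real x) := by
  classical
  have h1 : ∀ c : Code, ∃ x : ℕ → Bool, ∀ T : Set (List Bool), IsTree T → T.Infinite →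
      Computes c b (chi T) → IsPath x T := by
    intro c
    by_cases h : ∃ T : Set (List Bool), IsTree T ∧ T.Infinite ∧ Computes c b (chi T)
    · obtain ⟨T, hT, hi, hc⟩ := h
      obtain ⟨x, hx⟩ := exists_isPath hT hi
      refine ⟨x, fun T' _ _ hc' => ?_⟩
      have : chi T = chi T' := by
        funext n
        exact Part.mem_unique (hc n) (hc' n)
      rw [← chi_injective this]
      exact hx
    · exact ⟨fun _ => false, fun T hT hi hc => absurd ⟨T, hT, hi, hc⟩ h⟩
  choose y hy using h1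
  refine ⟨fun m => if h : ∃ c : Code, c.num = m.unpair.1 then real (y h.choose) m.unpair.2 else 0,
    fun T hT hi hb => ?_⟩
  obtain ⟨c, hc⟩ := hb
  refine ⟨y c, hy c T hT hi hc, ?_⟩
  have h2 := (Rec.refl (fun m => if h : ∃ c : Code, c.num = m.unpair.1 then
    real (y h.choose) m.unpair.2 else 0)).comp (Rec.computable (f := fun n => Nat.pair c.num n)
      (Primrec₂.natPair.comp (Primrec.const _) Primrec.id).to_comp)
  have e : (fun n => (fun m => if h : ∃ c : Code, c.num = m.unpair.1 then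
      real (y h.choose) m.unpair.2 else 0) (Nat.pair c.num n)) = real (y c) := by
    funext n
    have h3 : ∃ c' : Code, c'.num = (Nat.pair c.num n).unpair.1 := ⟨c, by rw [Nat.unpair_pair]⟩
    have h4 : h3.choose = c := by
      apply Code.num_injective
      rw [h3.choose_spec, Nat.unpair_pair]
    simp only
    rw [dif_pos h3, h4, Nat.unpair_pair]
  rwa [e] at h2

/-- the generic construction over `b` -/
theorem exists_generic (b : ℕ → ℕ) : ∃ z W : ℕ → ℕ,
    (∀ T : Set (List Bool), IsTree T → T.Infinite → Rec b (chi T) →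
      ∃ x, IsPath x T ∧ Rec z (real x)) ∧
    (∀ x, IsPath x (dnc b) → ¬ Rec (join b W) (real x)) ∧
    (∀ s r, Rec b s → Rec b r → ¬ Rec r s → ¬ Rec (join r W) s) ∧
    ∀ i, ¬ Rec (join (join b z) (sec (fun j => decide (j ≠ i)) W))
      (sec (fun j => decide (j = i)) W) := by
  obtain ⟨z, hz⟩ := exists_paths b
  have h1 : ∀ᶠ W in residual (ℕ → ℕ), ¬ ∃ y, Rec (join b W) y ∧ ∀ n, y n ∉ eval b J n := by
    refine dense_ok (Ok := fun n v => v ∉ eval b J n) ?_
    rintro ⟨g, hg, hg2⟩
    obtain ⟨i, hi⟩ := J_spec b g hg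
    exact hg2 i hi
  have h2 : ∀ᶠ W in residual (ℕ → ℕ), ∀ p : Code × Code, ∀ s r, Computes p.1 b s →
      Computes p.2 b r → ¬ Rec r s → ¬ Rec (join r W) s := by
    rw [eventually_countable_forall]
    rintro ⟨c1, c2⟩
    by_cases h : ∃ s r, Computes c1 b s ∧ Computes c2 b r ∧ ¬ Rec r s
    · obtain ⟨s, r, hs, hr, hrs⟩ := h
      have h3 : ∀ᶠ W in residual (ℕ → ℕ), ¬ ∃ y, Rec (join r W) y ∧ ∀ n, y n = s n := by
        refine dense_ok (Ok := fun n v => v = s n) ?_
        rintro ⟨g, hg, hg2⟩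
        have : g = s := funext hg2
        exact hrs (this ▸ hg)
      refine h3.mono fun W hW s' r' hs' hr' _ h4 => hW ?_
      have e1 : s' = s := funext fun n => Part.mem_unique (hs' n) (hs n)
      have e2 : r' = r := funext fun n => Part.mem_unique (hr' n) (hr n)
      rw [e1, e2] at h4
      exact ⟨s, h4, fun _ => rfl⟩
    · refine Filter.Eventually.of_forall fun W s r hs hr hrs => absurd ⟨s, r, hs, hr, hrs⟩ h
  have h3 : ∀ᶠ W in residual (ℕ → ℕ), ∀ i : ℕ,
      ¬ Rec (join (join b z) (sec (fun j => decide (j ≠ i)) W))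
        (sec (fun j => decide (j = i)) W) := by
    rw [eventually_countable_forall]
    intro i
    exact dense_indep _ i
  have h4 := h1.and (h2.and h3)
  obtain ⟨W, hW1, hW2, hW3⟩ : ∃ W, (¬ ∃ y, Rec (join b W) y ∧ ∀ n, y n ∉ eval b J n) ∧
      (∀ p : Code × Code, ∀ s r, Computes p.1 b s →
      Computes p.2 b r → ¬ Rec r s → ¬ Rec (join r W) s) ∧ ∀ i : ℕ,
      ¬ Rec (join (join b z) (sec (fun j => decide (j ≠ i)) W))
        (sec (fun j => decide (j = i)) W) := by
    obtain ⟨W, hW⟩ := (dense_of_mem_residual h4).nonempty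
    exact ⟨W, hW⟩
  refine ⟨z, W, hz, ?_, ?_, hW3⟩
  · intro x hx h5
    exact hW1 ⟨real x, h5, fun n h6 => path_avoids hx h6 rfl⟩
  · rintro s r ⟨c1, h5⟩ ⟨c2, h6⟩ h7
    exact hW2 (c1, c2) s r h5 h6 h7

end PAtype
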