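import Pool.Agent.Lib_MP_5a4806_lc.Appr

/-!
# Functions recursive in an oracle: closure properties and a search principle
-/

namespace PAtype

open UnifRep Encodable

/-- `Rec x f`: some program computes `f` from the oracle `x` -/
def Rec (x f : ℕ → ℕ) : Prop := ∃ c, Computes c x f

theorem rec_iff {x f : ℕ → ℕ} : Rec x f ↔ TuringReducible (f : ℕ →. ℕ) (x : ℕ →. ℕ) :=
  computes_iff x f

theorem Rec.refl (x : ℕ → ℕ) : Rec x x := rec_iff.2 (TuringReducible.refl _)

theorem Rec.trans {x y z : ℕ → ℕ} (h : Rec x y) (h' : Rec y z) : Rec x z :=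
  rec_iff.2 (TuringReducible.trans (rec_iff.1 h') (rec_iff.1 h))

theorem Rec.computable {x f : ℕ → ℕ} (hf : Computable f) : Rec x f := by
  obtain ⟨c, hc⟩ := exists_code_of_computable hf
  exact ⟨c, fun n => hc x n⟩

theorem Rec.comp {x f g : ℕ → ℕ} (hf : Rec x f) (hg : Rec x g) : Rec x fun n => f (g n) := by
  obtain ⟨a, ha⟩ := hf
  obtain ⟨b, hb⟩ := hg
  exact ⟨Code.comp a b, fun n => Part.mem_bind_iff.2 ⟨g n, hb n, ha (g n)⟩⟩

theorem Rec.pair {x f g : ℕ → ℕ} (hf : Rec x f) (hg : Rec x g) :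
    Rec x fun n => Nat.pair (f n) (g n) := by
  obtain ⟨a, ha⟩ := hf
  obtain ⟨b, hb⟩ := hg
  refine ⟨Code.pair a b, fun n => ?_⟩
  have e1 : eval x a n = Part.some (f n) := Part.eq_some_iff.2 (ha n)
  have e2 : eval x b n = Part.some (g n) := Part.eq_some_iff.2 (hb n)
  simp only [eval, e1, e2, Seq.seq, Part.map_eq_map, Part.map_some, Part.bind_some]
  exact Part.mem_some _

/-- a code for a computable function of a pair (input, other computation) -/
theorem exists_code_comp₂ {g : ℕ → ℕ} (hg : Computable g) (a b : Code) :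
    ∃ c : Code, ∀ (x : ℕ → ℕ) (n v : ℕ), v ∈ eval x c n ↔
      ∃ s ∈ eval x a n, ∃ t ∈ eval x b n, g (Nat.pair s t) = v := by
  obtain ⟨cg, hcg⟩ := exists_code_of_computable hg
  refine ⟨Code.comp cg (Code.pair a b), fun x n v => ?_⟩
  have e0 : ∀ m, eval x cg m = Part.some (g m) := fun m => Part.eq_some_iff.2 (hcg x m)
  have h0 : v ∈ eval x (Code.comp cg (Code.pair a b)) n ↔
      ∃ w ∈ eval x (Code.pair a b) n, v ∈ eval x cg w := Part.mem_bind_iff
  rw [h0]
  simp only [eval, Seq.seq, Functor.map, Part.mem_bind_iff, Part.mem_map_iff, e0,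
    Part.mem_some_iff]
  constructor
  · rintro ⟨w, ⟨q, ⟨s, hs, rfl⟩, t, ht, rfl⟩, rfl⟩
    exact ⟨s, hs, t, ht, rfl⟩
  · rintro ⟨s, hs, t, ht, rfl⟩
    exact ⟨_, ⟨_, ⟨s, hs, rfl⟩, t, ht, rfl⟩, rfl⟩

theorem res_zero (x : ℕ → ℕ) : res x 0 = [] := rfl

theorem res_succ (x : ℕ → ℕ) (k : ℕ) : res x (k + 1) = res x k ++ [x k] := by
  simp [res, List.range_succ]

/-- the initial segments of the oracle are computed by a program -/
theorem exists_code_res : ∃ R : Code, ∀ (x : ℕ → ℕ) (k : ℕ),
    eval x R k = Part.some (encode (res x k)) := by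
  obtain ⟨c0, hc0⟩ := exists_code_of_computable (f := fun _ : ℕ => encode ([] : List ℕ))
    (Computable.const _)
  have hg : Primrec fun m : ℕ => encode
      ((((decode (α := List ℕ) m.unpair.1.unpair.2.unpair.2).getD []) ++ [m.unpair.2]) : List ℕ) := by
    have h1 : Primrec fun m : ℕ => m.unpair.1 := Primrec.fst.comp Primrec.unpair
    have h2 : Primrec fun m : ℕ => m.unpair.2 := Primrec.snd.comp Primrec.unpair
    have h3 : Primrec fun m : ℕ => m.unpair.1.unpair.2.unpair.2 := h2.comp (h2.comp h1)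
    refine Primrec.encode.comp (Primrec.list_concat.comp ?_ h2)
    exact Primrec.option_getD.comp (Primrec.decode.comp h3) (Primrec.const _)
  obtain ⟨cid, hcid⟩ := exists_code_of_computable (f := fun n => n) Computable.id
  obtain ⟨cy, hcy⟩ := exists_code_of_computable (f := fun n : ℕ => n.unpair.2.unpair.1)
    ((Primrec.fst.comp (Primrec.unpair.comp (Primrec.snd.comp Primrec.unpair))).to_comp)
  obtain ⟨cp, hcp⟩ := exists_code_of_computable (f := fun n : ℕ => Nat.pair 0 n)
    ((Primrec₂.natPair.comp (Primrec.const 0) Primrec.id).to_comp)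
  obtain ⟨cb, hcb⟩ := exists_code_comp₂ hg.to_comp cid (Code.comp Code.oracle cy)
  refine ⟨Code.comp (Code.prec c0 cb) cp, fun x k => Part.eq_some_iff.2 ?_⟩
  have h0 : encode (res x k) ∈ eval x (Code.comp (Code.prec c0 cb) cp) k ↔
      ∃ w ∈ eval x cp k, encode (res x k) ∈ eval x (Code.prec c0 cb) w := Part.mem_bind_iff
  rw [h0]
  refine ⟨_, hcp x k, ?_⟩
  clear h0
  simp only [eval, Nat.unpair_pair]
  induction k with
  | zero => exact hc0 x 0
  | succ k ih =>
    dsimp only
    rw [Part.eq_some_iff.2 ih]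
    simp only [Part.bind_eq_bind, Part.bind_some]
    rw [hcb]
    refine ⟨_, hcid x _, x k, ?_, ?_⟩
    · refine Part.mem_bind_iff.2 ⟨_, hcy x _, ?_⟩
      simp [eval]
    · simp [res_succ]

/-- the search principle, on the level of programs -/
theorem exists_code_search {Q : ℕ → List ℕ → Option ℕ} (hQ : Computable₂ Q) :
    ∃ c : Code, ∀ (x : ℕ → ℕ) (n v : ℕ), v ∈ eval x c n ↔
      ∃ k, Q n (res x k) = some v ∧ ∀ j < k, Q n (res x j) = none := by
  obtain ⟨R, hR⟩ := exists_code_res
  have hQ' : Computable fun m : ℕ => Q m.unpair.1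
      ((decode (α := List ℕ) m.unpair.2).getD []) := by
    refine hQ.comp (Computable.fst.comp Computable.unpair) ?_
    exact (Primrec.option_getD.comp (Primrec.decode.comp (Primrec.snd.comp Primrec.unpair))
      (Primrec.const _)).to_comp
  have hA : Computable fun m : ℕ => if (Q m.unpair.1
      ((decode (α := List ℕ) m.unpair.2).getD [])).isSome then 0 else 1 := by
    have h2 : Primrec fun o : Option ℕ => if o.isSome then 0 else 1 :=
      Primrec.ite (Primrec.eq.comp Primrec.option_isSome (Primrec.const true)) (Primrec.const 0)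
        (Primrec.const 1)
    exact h2.to_comp.comp hQ'
  have hB : Computable fun m : ℕ => (Q m.unpair.1
      ((decode (α := List ℕ) m.unpair.2).getD [])).getD 0 := by
    have h2 : Primrec fun o : Option ℕ => o.getD 0 :=
      Primrec.option_getD.comp Primrec.id (Primrec.const 0)
    exact h2.to_comp.comp hQ'
  obtain ⟨a, ha⟩ := exists_code_comp₂ hA Code.left (Code.comp R Code.right)
  obtain ⟨cid, hcid⟩ := exists_code_of_computable (f := fun n => n) Computable.id
  obtain ⟨c, hc⟩ := exists_code_comp₂ hB cid (Code.comp R (Code.rfind a))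
  refine ⟨c, fun x n v => ?_⟩
  have e1 : ∀ m, eval x a m = Part.some (if (Q m.unpair.1
      (res x m.unpair.2)).isSome then 0 else 1) := by
    intro m
    refine Part.eq_some_iff.2 ((ha x m _).2 ⟨m.unpair.1, Part.mem_some _,
      encode (res x m.unpair.2), Part.mem_bind_iff.2 ⟨m.unpair.2, Part.mem_some _, ?_⟩, ?_⟩)
    · rw [hR]; exact Part.mem_some _
    · simp
  have e2 : ∀ k, k ∈ eval x (Code.rfind a) n ↔
      (Q n (res x k)).isSome ∧ ∀ j < k, Q n (res x j) = none := by
    intro k
    have h0 : k ∈ eval x (Code.rfind a) n ↔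
        (true ∈ (fun k => decide (k = 0)) <$> eval x a (Nat.pair n k)) ∧
        ∀ {m : ℕ}, m < k → false ∈ (fun k => decide (k = 0)) <$> eval x a (Nat.pair n m) :=
      Nat.mem_rfind
    rw [h0]
    simp only [e1, Part.map_eq_map, Part.map_some, Part.mem_some_iff, Nat.unpair_pair]
    constructor
    · rintro ⟨h1, h2⟩
      refine ⟨?_, fun j hj => ?_⟩
      · by_contra h3
        simp [h3] at h1
      · have h3 := h2 hj
        by_contra h4
        have h5 : (Q n (res x j)).isSome = true := Option.isSome_iff_ne_none.2 h4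
        simp [h5] at h3
    · rintro ⟨h1, h2⟩
      refine ⟨by simp [h1], fun {j} hj => by simp [h2 j hj]⟩
  rw [hc]
  have e3 : eval x cid n = Part.some n := Part.eq_some_iff.2 (hcid x n)
  constructor
  · rintro ⟨s, hs, t, ht, rfl⟩
    rw [e3, Part.mem_some_iff] at hs
    subst hs
    obtain ⟨k, hk, ht⟩ := Part.mem_bind_iff.1 ht
    rw [hR, Part.mem_some_iff] at ht
    subst ht
    obtain ⟨h1, h2⟩ := (e2 k).1 hk
    refine ⟨k, ?_, h2⟩
    obtain ⟨w, hw⟩ := Option.isSome_iff_exists.1 h1
    simp [hw]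
  · rintro ⟨k, h1, h2⟩
    refine ⟨n, by rw [e3]; exact Part.mem_some _, encode (res x k),
      Part.mem_bind_iff.2 ⟨k, (e2 k).2 ⟨by simp [h1], h2⟩, ?_⟩, ?_⟩
    · rw [hR]; exact Part.mem_some _
    · simp [h1]

/-- the search principle: if a computable search through the initial segments of `r` finds only
the values of `s`, and finds all of them, then `s` is recursive in `r` -/
theorem Rec.of_search {s r : ℕ → ℕ} {Q : ℕ → List ℕ → Option ℕ} (hQ : Computable₂ Q)
    (h1 : ∀ n, ∃ k v, Q n (res r k) = some v) (h2 : ∀ n k v, Q n (res r k) = some v → v = s n) :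
    Rec r s := by
  classical
  obtain ⟨c, hc⟩ := exists_code_search hQ
  refine ⟨c, fun n => (hc r n _).2 ?_⟩
  have h3 : ∃ k, Q n (res r k) ≠ none := by
    obtain ⟨k, v, hk⟩ := h1 n
    exact ⟨k, by simp [hk]⟩
  refine ⟨Nat.find h3, ?_, fun j hj => ?_⟩
  · obtain ⟨v, hv⟩ := Option.ne_none_iff_exists'.1 (Nat.find_spec h3)
    rw [hv, h2 n _ v hv]
  · exact not_not.1 (Nat.find_min h3 hj)

end PAtype
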