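import Pool.Agent.Lib_MP_5a4806_lc.Rec
import Pool.Agent.Lib_MP_5a4806_lc.Defs

/-!
# A tree recursive in `b` without paths recursive in `b`
-/

namespace PAtype

open UnifRep Encodable

/-- there is a universal diagonal program: for every oracle `x` and every `g` recursive in `x` it
has at some input `i` the value `g i` -/
theorem exists_diag : ∃ J : Code, ∀ x g : ℕ → ℕ, Rec x g → ∃ i, g i ∈ eval x J i := by
  have hQ : Primrec₂ fun (i : ℕ) (ρ : List ℕ) =>
      Nat.Partrec.Code.evaln ρ.length.unpair.1 (Denumerable.ofNat Nat.Partrec.Code i)
        (Nat.pair i (encode (ρ.take ρ.length.unpair.2))) := by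
    have hl : Primrec fun p : ℕ × List ℕ => p.2.length := Primrec.list_length.comp Primrec.snd
    have h1 : Primrec fun p : ℕ × List ℕ => p.2.length.unpair.1 :=
      Primrec.fst.comp (Primrec.unpair.comp hl)
    have h2 : Primrec fun p : ℕ × List ℕ => p.2.length.unpair.2 :=
      Primrec.snd.comp (Primrec.unpair.comp hl)
    have h3 : Primrec fun p : ℕ × List ℕ => Denumerable.ofNat Nat.Partrec.Code p.1 :=
      (Primrec.ofNat _).comp Primrec.fst
    have h4 : Primrec fun p : ℕ × List ℕ => Nat.pair p.1 (encode (p.2.take p.2.length.unpair.2)) :=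
      Primrec₂.natPair.comp Primrec.fst (Primrec.encode.comp (Primrec.list_take.comp h2
        Primrec.snd))
    exact Nat.Partrec.Code.primrec_evaln.comp ((h1.pair h3).pair h4)
  obtain ⟨J, hJ⟩ := exists_code_search hQ.to_comp
  refine ⟨J, fun x g hg => ?_⟩
  obtain ⟨c, hc⟩ := hg
  have hp : Nat.Partrec fun m : ℕ => (Part.ofOption (appr c m.unpair.1
      ((decode (α := List ℕ) m.unpair.2).getD []))) := by
    have h1 : Primrec fun m : ℕ => appr c m.unpair.1 ((decode (α := List ℕ) m.unpair.2).getD []) :=
      (appr_primrec c).comp (Primrec.fst.comp Primrec.unpair)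
        (Primrec.option_getD.comp (Primrec.decode.comp (Primrec.snd.comp Primrec.unpair))
          (Primrec.const _))
    exact Partrec.nat_iff.1 (h1.to_comp.ofOption)
  obtain ⟨e, he⟩ := Nat.Partrec.Code.exists_code.1 hp
  set i := encode e with hi
  have hei : Denumerable.ofNat Nat.Partrec.Code i = e := by rw [hi, Denumerable.ofNat_encode]
  -- values are correct
  have h2 : ∀ k v, Nat.Partrec.Code.evaln (res x k).length.unpair.1
      (Denumerable.ofNat Nat.Partrec.Code i) (Nat.pair i (encode ((res x k).take
        (res x k).length.unpair.2))) = some v → v = g i := by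
    intro k v hv
    rw [hei] at hv
    have h3 := Nat.Partrec.Code.evaln_sound hv
    rw [he] at h3
    simp only [Nat.unpair_pair, encodek, Option.getD_some, Part.mem_ofOption, Option.mem_def,
      length_res] at h3
    have h4 : (res x k).take k.unpair.2 = res x k.unpair.2 := by
      have := res_prefix x (Nat.unpair_right_le k)
      rw [List.prefix_iff_eq_take] at this
      rw [length_res] at this
      exact this.symm
    rw [h4] at h3
    exact Part.mem_unique ((mem_eval_iff c x i v).2 ⟨_, h3⟩) (hc i)
  have h5 : ∃ k v, Nat.Partrec.Code.evaln (res x k).length.unpair.1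
      (Denumerable.ofNat Nat.Partrec.Code i) (Nat.pair i (encode ((res x k).take
        (res x k).length.unpair.2))) = some v := by
    obtain ⟨k, hk⟩ := (mem_eval_iff c x i (g i)).1 (hc i)
    have h6 : g i ∈ Nat.Partrec.Code.eval e (Nat.pair i (encode (res x k))) := by
      rw [he]
      simp [hk]
    obtain ⟨s, hs⟩ := Nat.Partrec.Code.evaln_complete.1 h6
    refine ⟨Nat.pair s k, g i, ?_⟩
    rw [hei]
    simp only [length_res, Nat.unpair_pair]
    have h4 : (res x (Nat.pair s k)).take k = res x k := by
      have := res_prefix x (Nat.right_le_pair s k)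
      rw [List.prefix_iff_eq_take] at this
      rw [length_res] at this
      exact this.symm
    rw [h4]
    exact hs
  classical
  have h3 : ∃ k, Nat.Partrec.Code.evaln (res x k).length.unpair.1
      (Denumerable.ofNat Nat.Partrec.Code i) (Nat.pair i (encode ((res x k).take
        (res x k).length.unpair.2))) ≠ none := by
    obtain ⟨k, v, hk⟩ := h5
    exact ⟨k, by simp only [hk]; simp⟩
  refine ⟨i, (hJ x i _).2 ⟨Nat.find h3, ?_, fun j hj => ?_⟩⟩
  · obtain ⟨v, hv⟩ := Option.ne_none_iff_exists'.1 (Nat.find_spec h3)
    rw [hv, h2 _ v hv]
  · exact not_not.1 (Nat.find_min h3 hj)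

/-- the diagonal program -/
noncomputable def J : Code := exists_diag.choose

theorem J_spec (x g : ℕ → ℕ) (h : Rec x g) : ∃ i, g i ∈ eval x J i := exists_diag.choose_spec x g h

/-- the tree of the strings which avoid, as far as it is visible, the values of the diagonal
program with oracle `b` -/
def dnc (b : ℕ → ℕ) : Set (List Bool) :=
  {σ | ∀ i < σ.length, appr J i (res b σ.length) ≠ some (σ.getD i false).toNat}

theorem dnc_prefix (b : ℕ → ℕ) {σ τ : List Bool} (h : σ <+: τ) (hτ : τ ∈ dnc b) : σ ∈ dnc b := by
  intro i hi h2
  have h3 := appr_mono J (res_prefix b h.length_le) h2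
  refine hτ i (hi.trans_le h.length_le) ?_
  rw [h3]
  obtain ⟨μ, rfl⟩ := h
  rw [List.getD_append _ _ _ _ hi]

theorem dnc_infinite (b : ℕ → ℕ) : (dnc b).Infinite := by
  refine Set.infinite_of_injective_forall_mem
    (f := fun n => (List.range n).map fun i => decide (appr J i (res b n) = some 0)) ?_ ?_
  · intro m n h
    simpa using congrArg List.length h
  · intro n i hi h2
    simp only [List.length_map, List.length_range] at hi h2
    rw [List.getD_eq_getElem _ _ (by simpa using hi)] at h2
    simp only [List.getElem_map, List.getElem_range] at h2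
    by_cases h3 : appr J i (res b n) = some 0
    · rw [h3] at h2
      simp at h2
    · rw [decide_eq_false h3] at h2
      exact h3 h2

theorem path_avoids {b : ℕ → ℕ} {x : ℕ → Bool} (hx : ∀ n, (List.range n).map x ∈ dnc b) {i v : ℕ}
    (hv : v ∈ eval b J i) : (x i).toNat ≠ v := by
  intro h
  obtain ⟨k, hk⟩ := (mem_eval_iff J b i v).1 hv
  have h1 := hx (max k (i + 1)) i (by simp)
  rw [List.getD_eq_getElem _ _ (by simp)] at h1
  simp only [List.length_map, List.length_range, List.getElem_map, List.getElem_range] at h1
  rw [appr_mono J (res_prefix b (le_max_left k (i + 1))) hk, h] at h1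
  exact h1 rfl

theorem rec_chi_dnc (b : ℕ → ℕ) : Rec b (chi (dnc b)) := by
  classical
  have hP : PrimrecRel fun (i : ℕ) (p : List Bool × List ℕ) =>
      appr J i p.2 ≠ some (p.1.getD i false).toNat := by
    have h1 : Primrec fun q : ℕ × (List Bool × List ℕ) => appr J q.1 q.2.2 :=
      (appr_primrec J).comp Primrec.fst (Primrec.snd.comp Primrec.snd)
    have h2 : Primrec fun q : ℕ × (List Bool × List ℕ) => some (q.2.1.getD q.1 false).toNat := by
      refine Primrec.option_some.comp ?_
      have h3 : Primrec Bool.toNat := Primrec.dom_finite _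
      exact h3.comp ((Primrec.list_getD false).comp (Primrec.fst.comp Primrec.snd) Primrec.fst)
    exact (Primrec.eq.comp h1 h2).not
  have hP2 := PrimrecRel.forall_mem_list hP
  have hP3 : PrimrecPred fun q : (ℕ × List ℕ) × List Bool =>
      ∀ i < q.2.length, appr J i q.1.2 ≠ some (q.2.getD i false).toNat :=
    (hP2.comp (Primrec.list_range.comp (Primrec.list_length.comp Primrec.snd))
      (Primrec.snd.pair (Primrec.snd.comp Primrec.fst))).of_eq (by simp)
  have hQ : Primrec₂ fun (m : ℕ) (ρ : List ℕ) =>
      Option.casesOn (motive := fun _ => Option ℕ) (decode (α := List Bool) m) (some 0)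
        fun σ => if encode σ = m then
          (if σ.length = ρ.length then some (if ∀ i < σ.length,
            appr J i ρ ≠ some (σ.getD i false).toNat then 1 else 0) else none)
          else some 0 := by
    refine Primrec.option_casesOn (Primrec.decode.comp Primrec.fst) (Primrec.const _) ?_
    refine Primrec.ite (Primrec.eq.comp (Primrec.encode.comp Primrec.snd)
      (Primrec.fst.comp Primrec.fst)) ?_ (Primrec.const _)
    refine Primrec.ite (Primrec.eq.comp (Primrec.list_length.comp Primrec.snd)
      (Primrec.list_length.comp (Primrec.snd.comp Primrec.fst))) ?_ (Primrec.const _)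
    exact Primrec.option_some.comp (Primrec.ite hP3 (Primrec.const 1) (Primrec.const 0))
  refine Rec.of_search hQ.to_comp (fun m => ?_) (fun m k v hv => ?_)
  · cases hd : decode (α := List Bool) m with
    | none => exact ⟨0, 0, by simp⟩
    | some σ =>
      by_cases hm : encode σ = m
      · refine ⟨σ.length, (if ∀ i < σ.length, appr J i (res b σ.length) ≠
          some (σ.getD i false).toNat then 1 else 0), ?_⟩
        dsimp only
        rw [if_pos hm, if_pos (length_res b σ.length).symm]
      · exact ⟨0, 0, by simp [hm]⟩
  · unfold chi
    cases hd : decode (α := List Bool) m with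
    | none =>
      rw [hd] at hv
      have h0 : ¬ ∃ σ ∈ dnc b, encode σ = m := by
        rintro ⟨σ, -, rfl⟩
        rw [encodek] at hd
        exact absurd hd (by simp)
      rw [if_neg h0]
      exact (Option.some_injective _ hv).symm
    | some σ =>
      rw [hd] at hv
      dsimp only at hv
      by_cases hm : encode σ = m
      · rw [if_pos hm] at hv
        split_ifs at hv with h1 h2
        · have h0 : ∃ σ ∈ dnc b, encode σ = m := by
            refine ⟨σ, fun i hi => ?_, hm⟩
            rw [length_res] at h1
            rw [h1]
            exact h2 i hi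
          rw [if_pos h0]
          exact (Option.some_injective _ hv).symm
        · have h0 : ¬ ∃ σ ∈ dnc b, encode σ = m := by
            rintro ⟨τ, hτ, h3⟩
            have : τ = σ := encode_injective (h3.trans hm.symm)
            subst this
            rw [length_res] at h1
            exact h2 fun i hi => by rw [← h1]; exact hτ i hi
          rw [if_neg h0]
          exact (Option.some_injective _ hv).symm
      · rw [if_neg hm] at hv
        have h0 : ¬ ∃ σ ∈ dnc b, encode σ = m := by
          rintro ⟨τ, hτ, h3⟩
          rw [← h3, encodek] at hd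
          have : τ = σ := Option.some_injective _ hd
          subst this
          exact hm h3
        rw [if_neg h0]
        exact (Option.some_injective _ hv).symm

end PAtype
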